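import Mathlib

set_option autoImplicit false

/-! Counting solutions of `∑ x_i² = a` modulo `Q`. -/

namespace Pool.Agent.H25.QL

/-- number of solutions of `∑ x_i² = a` in `R^m` -/
noncomputable def nsol (R : Type) [CommRing R] (m : ℕ) (a : ℤ) : ℕ :=
  Nat.card {x : Fin m → R // ∑ i, x i ^ 2 = (a : R)}

lemma nsol_congr {R S : Type} [CommRing R] [CommRing S] (e : R ≃+* S) (m : ℕ) (a : ℤ) :
    nsol R m a = nsol S m a := by
  unfold nsol
  refine Nat.card_congr ?_
  refine (Equiv.subtypeEquiv (Equiv.arrowCongr (Equiv.refl (Fin m)) e.toEquiv) ?_)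
  intro x
  have h : ∑ i, (Equiv.arrowCongr (Equiv.refl (Fin m)) e.toEquiv x) i ^ 2 = e (∑ i, x i ^ 2) := by
    simp [map_sum]
  rw [h]
  constructor
  · intro h1
    rw [h1, map_intCast]
  · intro h1
    apply e.injective
    rw [h1, map_intCast]

lemma nsol_prod (R S : Type) [CommRing R] [CommRing S] (m : ℕ) (a : ℤ) :
    nsol (R × S) m a = nsol R m a * nsol S m a := by
  unfold nsol
  rw [← Nat.card_prod]
  refine Nat.card_congr ?_
  refine
    { toFun := fun x => (⟨fun i => (x.1 i).1, ?_⟩, ⟨fun i => (x.1 i).2, ?_⟩)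
      invFun := fun y => ⟨fun i => (y.1.1 i, y.2.1 i), ?_⟩
      left_inv := ?_
      right_inv := ?_ }
  · have h := congrArg Prod.fst x.2
    simpa [Prod.fst_sum] using h
  · have h := congrArg Prod.snd x.2
    simpa [Prod.snd_sum] using h
  · apply Prod.ext
    · simpa [Prod.fst_sum] using y.1.2
    · simpa [Prod.snd_sum] using y.2.2
  · intro x; rfl
  · intro y; rfl

lemma recover {F : Type} [Field F] (h2 : (2 : F) ≠ 0) {a b : F} (hab : a ^ 2 + b ^ 2 = -1)
    {α β γ α' β' γ' : F} (hx : a * (α + β) + b * γ = a * (α' + β') + b * γ')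
    (hy : b * (α + β) - a * γ = b * (α' + β') - a * γ') (hz : α - β = α' - β') :
    α = α' ∧ β = β' ∧ γ = γ' := by
  have h1 : α + β = α' + β' := by
    linear_combination (-a) * hx + (-b) * hy + (α + β - α' - β') * hab
  have h3 : γ = γ' := by
    linear_combination (-b) * hx + a * hy + (γ - γ') * hab
  have h4 : 2 * (α - α') = 0 := by linear_combination h1 + hz
  have h5 : α = α' := by
    have := (mul_eq_zero.mp h4).resolve_left h2
    exact sub_eq_zero.mp this
  refine ⟨h5, ?_, h3⟩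
  rw [h5] at h1
  exact add_left_cancel h1

/-- change of coordinates -/
def vec {F : Type} [Field F] (a b : F) (v : F × F × F) : Fin 3 → F :=
  ![a * (v.1 + v.2.1) + b * v.2.2, b * (v.1 + v.2.1) - a * v.2.2, v.1 - v.2.1]

lemma vec_sq {F : Type} [Field F] {a b : F} (hab : a ^ 2 + b ^ 2 = -1) (v : F × F × F) :
    ∑ i, vec a b v i ^ 2 = -(4 * v.1 * v.2.1 + v.2.2 ^ 2) := by
  unfold vec
  simp only [Fin.sum_univ_three, Matrix.cons_val_zero, Matrix.cons_val_one, Matrix.cons_val]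
  linear_combination ((v.1 + v.2.1) ^ 2 + v.2.2 ^ 2) * hab

lemma vec_inj {F : Type} [Field F] (h2 : (2 : F) ≠ 0) {a b : F} (hab : a ^ 2 + b ^ 2 = -1) :
    Function.Injective (vec a b) := by
  intro v w h
  have h0 := congrFun h 0
  have h1 := congrFun h 1
  have h3 := congrFun h 2
  simp only [vec, Matrix.cons_val_zero, Matrix.cons_val_one, Matrix.cons_val] at h0 h1 h3
  obtain ⟨e1, e2, e3⟩ := recover h2 hab h0 h1 h3
  exact Prod.ext e1 (Prod.ext e2 e3)

lemma two_ne {p : ℕ} [Fact p.Prime] (hp : p ≠ 2) : (2 : ZMod p) ≠ 0 := by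
  intro h
  have h1 : ((2 : ℕ) : ZMod p) = 0 := by exact_mod_cast h
  rw [ZMod.natCast_eq_zero_iff] at h1
  have := (Nat.prime_dvd_prime_iff_eq (Fact.out : p.Prime) Nat.prime_two).mp h1
  exact hp this

lemma four_ne {p : ℕ} [Fact p.Prime] (hp : p ≠ 2) : (4 : ZMod p) ≠ 0 := by
  have h := two_ne hp
  have : (4 : ZMod p) = 2 * 2 := by norm_num
  rw [this]
  exact mul_ne_zero h h

lemma card_ne_zero' (p : ℕ) [Fact p.Prime] : Nat.card {α : ZMod p // α ≠ 0} = p - 1 := by
  classical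
  rw [Nat.card_eq_fintype_card, Fintype.card_subtype_compl, ZMod.card]
  simp

theorem nsol3 (p : ℕ) [Fact p.Prime] (hp : p ≠ 2) : p ^ 2 + p ≤ nsol (ZMod p) 3 (-1) := by
  obtain ⟨a, b, hab⟩ := ZMod.sq_add_sq p (-1)
  have h2 := two_ne hp
  have h4 := four_ne hp
  set g : (ZMod p × {α : ZMod p // α ≠ 0}) ⊕ (Bool × ZMod p) → ZMod p × ZMod p × ZMod p := fun s =>
    match s with
    | Sum.inl x => (x.2.1, (1 - x.1 ^ 2) / (4 * x.2.1), x.1)
    | Sum.inr x => (0, x.2, if x.1 then 1 else -1) with hg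
  have hgs : ∀ s, 4 * (g s).1 * (g s).2.1 + (g s).2.2 ^ 2 = 1 := by
    intro s
    rcases s with x | x
    · have hx := x.2.2
      simp only [hg]
      field_simp
      ring
    · simp only [hg]
      split_ifs <;> ring
  have hgi : Function.Injective g := by
    intro s t h
    rcases s with x | x <;> rcases t with y | y <;> simp only [hg, Prod.mk.injEq] at h
    · obtain ⟨h1, -, h3⟩ := h
      congr 1
      exact Prod.ext h3 (Subtype.ext h1)
    · exact absurd h.1 x.2.2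
    · exact absurd h.1.symm y.2.2
    · obtain ⟨-, h1, h3⟩ := h
      congr 1
      refine Prod.ext ?_ h1
      have hne : (1 : ZMod p) ≠ -1 := by
        intro h5
        apply h2
        linear_combination h5
      rcases hx : x.1 with _ | _ <;> rcases hy : y.1 with _ | _ <;> rw [hx, hy] at h3 <;> simp at h3
      · exact absurd h3.symm hne
      · exact absurd h3 hne
  have hcard : Nat.card ((ZMod p × {α : ZMod p // α ≠ 0}) ⊕ (Bool × ZMod p)) = p ^ 2 + p := by
    rw [Nat.card_sum, Nat.card_prod, Nat.card_prod, card_ne_zero', Nat.card_zmod]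
    have : 1 ≤ p := (Fact.out : p.Prime).one_lt.le
    simp only [Nat.card_eq_fintype_card, Fintype.card_bool]
    obtain ⟨q, rfl⟩ := Nat.exists_eq_add_of_le this
    simp only [Nat.add_sub_cancel_left]
    ring
  rw [← hcard]
  unfold nsol
  refine Nat.card_le_card_of_injective
    (fun s => (⟨vec a b (g s), ?_⟩ : {x : Fin 3 → ZMod p // ∑ i, x i ^ 2 = (((-1 : ℤ)) : ZMod p)})) ?_
  · rw [vec_sq hab, hgs]
    push_cast
    ring
  · intro s t h
    have h1 := congrArg Subtype.val h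
    exact hgi (vec_inj h2 hab h1)

theorem nsol4 (p : ℕ) [Fact p.Prime] (hp : p ≠ 2) : p ^ 3 + p ^ 2 ≤ nsol (ZMod p) 4 0 + p := by
  obtain ⟨a, b, hab⟩ := ZMod.sq_add_sq p (-1)
  have h2 := two_ne hp
  have h4 := four_ne hp
  set g : (ZMod p × ZMod p × {α : ZMod p // α ≠ 0}) ⊕
      (ZMod p ⊕ ({w : ZMod p // w ≠ 0} × Bool × ZMod p)) → (ZMod p × ZMod p × ZMod p) × ZMod p :=
    fun s =>
    match s with
    | Sum.inl x => ((x.2.2.1, (x.1 ^ 2 - x.2.1 ^ 2) / (4 * x.2.2.1), x.2.1), x.1)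
    | Sum.inr (Sum.inl x) => ((0, x, 0), 0)
    | Sum.inr (Sum.inr x) => ((0, x.2.2, if x.2.1 then x.1.1 else -x.1.1), x.1.1) with hg
  have hgs : ∀ s, 4 * (g s).1.1 * (g s).1.2.1 + (g s).1.2.2 ^ 2 = (g s).2 ^ 2 := by
    intro s
    rcases s with x | x | x
    · have hx := x.2.2.2
      simp only [hg]
      field_simp
      ring
    · simp only [hg]
      ring
    · simp only [hg]
      split_ifs <;> ring
  have hgi : Function.Injective g := by
    intro s t h
    rcases s with x | x | x <;> rcases t with y | y | y <;> simp only [hg, Prod.mk.injEq] at h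
    · obtain ⟨⟨h1, -, h3⟩, h5⟩ := h
      congr 1
      exact Prod.ext h5 (Prod.ext h3 (Subtype.ext h1))
    · exact absurd h.1.1 x.2.2.2
    · exact absurd h.1.1 x.2.2.2
    · exact absurd h.1.1.symm y.2.2.2
    · obtain ⟨⟨-, h1, -⟩, -⟩ := h
      rw [h1]
    · exact absurd h.2.symm y.1.2
    · exact absurd h.1.1.symm y.2.2.2
    · exact absurd h.2 x.1.2
    · obtain ⟨⟨-, h1, h3⟩, h5⟩ := h
      congr 2
      refine Prod.ext (Subtype.ext h5) (Prod.ext ?_ h1)
      have hne : x.1.1 ≠ -x.1.1 := by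
        intro h6
        have h7 : 2 * x.1.1 = 0 := by linear_combination h6
        exact (mul_ne_zero h2 x.1.2) h7
      rw [← h5] at h3
      rcases hx : x.2.1 with _ | _ <;> rcases hy : y.2.1 with _ | _ <;> rw [hx, hy] at h3 <;>
        simp at h3
      · exact absurd h3.symm hne
      · exact absurd h3 hne
  have hcard : Nat.card ((ZMod p × ZMod p × {α : ZMod p // α ≠ 0}) ⊕
      (ZMod p ⊕ ({w : ZMod p // w ≠ 0} × Bool × ZMod p))) + p = p ^ 3 + p ^ 2 := by
    rw [Nat.card_sum, Nat.card_prod, Nat.card_prod, Nat.card_sum, Nat.card_prod, Nat.card_prod,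
      card_ne_zero', Nat.card_zmod]
    have : 1 ≤ p := (Fact.out : p.Prime).one_lt.le
    simp only [Nat.card_eq_fintype_card, Fintype.card_bool]
    obtain ⟨q, rfl⟩ := Nat.exists_eq_add_of_le this
    simp only [Nat.add_sub_cancel_left]
    ring
  rw [← hcard]
  refine Nat.add_le_add_right ?_ _
  unfold nsol
  refine Nat.card_le_card_of_injective
    (fun s => (⟨Fin.snoc (vec a b (g s).1) (g s).2, ?_⟩ :
      {x : Fin 4 → ZMod p // ∑ i, x i ^ 2 = (((0 : ℤ)) : ZMod p)})) ?_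
  · rw [Fin.sum_univ_castSucc]
    simp only [Fin.snoc_castSucc, Fin.snoc_last]
    rw [vec_sq hab, hgs]
    push_cast
    ring
  · intro s t h
    have h1 := congrArg Subtype.val h
    simp only at h1
    obtain ⟨h3, h5⟩ := Fin.snoc_injective2 h1
    exact hgi (Prod.ext (vec_inj h2 hab h3) h5)

/-- common lower bound -/
lemma nsol_lower {m : ℕ} {a : ℤ} (h : (m = 3 ∧ a = -1) ∨ (m = 4 ∧ a = 0)) (p : ℕ) (hpp : p.Prime)
    (hp : p ≠ 2) : (p : ℝ) ^ (m - 1) * (1 + 1 / (2 * p)) ≤ nsol (ZMod p) m a := by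
  have : Fact p.Prime := ⟨hpp⟩
  have hp0 : (2:ℝ) ≤ p := by exact_mod_cast hpp.two_le
  rcases h with ⟨rfl, rfl⟩ | ⟨rfl, rfl⟩
  · have h1 : ((p:ℝ) ^ 2 + p) ≤ nsol (ZMod p) 3 (-1) := by exact_mod_cast nsol3 p hp
    have h2 : (p : ℝ) ^ (3 - 1) * (1 + 1 / (2 * p)) = (p:ℝ) ^ 2 + p / 2 := by
      simp only [Nat.reduceSub]
      field_simp
    rw [h2]
    linarith
  · have h1 : ((p:ℝ) ^ 3 + p ^ 2) ≤ nsol (ZMod p) 4 0 + p := by exact_mod_cast nsol4 p hp
    have h2 : (p : ℝ) ^ (4 - 1) * (1 + 1 / (2 * p)) = (p:ℝ) ^ 3 + p ^ 2 / 2 := by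
      simp only [Nat.reduceSub]
      field_simp
    rw [h2]
    nlinarith

end Pool.Agent.H25.QL
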