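import Mathlib

set_option autoImplicit false

/-! Quantum limits on the flat torus `ℝ^d / (2πℤ)^d`: definitions. -/

namespace Pool.Agent.H25.QL

open MeasureTheory Filter Topology

instance factTwoPi : Fact ((0:ℝ) < 2 * Real.pi) := ⟨Real.two_pi_pos⟩

/-- The torus `ℝ^d / (2πℤ)^d`; its `volume` is Lebesgue measure, of total mass `(2π)^d`. -/
abbrev Torus (d : ℕ) : Type := Fin d → AddCircle (2 * Real.pi)

/-- The projection `ℝ^d → ℝ^d / (2πℤ)^d`. -/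
noncomputable def proj {d : ℕ} (x : Fin d → ℝ) : Torus d := fun i => (x i : AddCircle (2 * Real.pi))

/-- The Laplacian `∑ ∂_i²` of a function on `ℝ^d`. -/
noncomputable def lap {d : ℕ} (F : (Fin d → ℝ) → ℂ) (x : Fin d → ℝ) : ℂ :=
  ∑ i, deriv (deriv fun s => F (Function.update x i s)) (x i)

/-- The space of smooth `u` on the torus with `-Δu = λ² u`. -/
def eigenspace (d : ℕ) (lam : ℝ) : Set (Torus d → ℂ) :=
  {u | (∀ n : ℕ, ContDiff ℝ n fun x => u (proj x)) ∧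
    ∀ x : Fin d → ℝ, -lap (fun x => u (proj x)) x = (lam : ℂ) ^ 2 * u (proj x)}

/-- The Euclidean ball `{|x| < r}`, viewed in the torus. -/
def ball (d : ℕ) (r : ℝ) : Set (Torus d) := proj '' {x | ∑ i, x i ^ 2 < r ^ 2}

/-- `μ` is a quantum limit: the weak limit of `|u_j|² dx` for eigenfunctions `u_j` with
`λ_j → ∞`, normalised by `⨍ |u_j|² = 1`. -/
def IsQuantumLimit {d : ℕ} (μ : Measure (Torus d)) : Prop :=
  IsFiniteMeasure μ ∧ ∃ (lam : ℕ → ℝ) (u : ℕ → Torus d → ℂ),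
    Tendsto lam atTop atTop ∧ (∀ j, 0 ≤ lam j ∧ ∃ N : ℕ, lam j ^ 2 = N) ∧
    (∀ j, u j ∈ eigenspace d (lam j)) ∧ (∀ j, ⨍ x, ‖u j x‖ ^ 2 = 1) ∧
    ∀ g : Torus d → ℝ, Continuous g →
      Tendsto (fun j => ∫ x, g x * ‖u j x‖ ^ 2) atTop (𝓝 (∫ x, g x ∂μ))

/-- `m_d(r)`: the infimum of `μ(B_r) / |B_r|` over all quantum limits `μ`, in `[0, ∞]`. -/
noncomputable def mQ (d : ℕ) (r : ℝ) : ENNReal :=
  ⨅ (μ : Measure (Torus d)) (_ : IsQuantumLimit μ), μ (ball d r) / volume (ball d r)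

end Pool.Agent.H25.QL
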