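import Mathlib
import Pool.Agent.H25.QL.Count

set_option autoImplicit false

/-! Many lattice points on a sphere of dimension 2 or 3. -/

namespace Pool.Agent.H25.QL

lemma prod_ge_sum (P : Finset ℕ) : 1 + ∑ p ∈ P, (1 / (2 * (p:ℝ))) ≤ ∏ p ∈ P, (1 + 1 / (2 * (p:ℝ))) := by
  classical
  induction P using Finset.induction_on with
  | empty => simp
  | insert p P hp ih =>
    rw [Finset.sum_insert hp, Finset.prod_insert hp]
    have h0 : 0 ≤ ∑ p ∈ P, (1 / (2 * (p:ℝ))) := Finset.sum_nonneg fun i _ => by positivity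
    have h1 : 0 ≤ 1 / (2 * (p:ℝ)) := by positivity
    calc 1 + (1 / (2 * (p:ℝ)) + ∑ p ∈ P, (1 / (2 * (p:ℝ))))
        ≤ (1 + 1 / (2 * (p:ℝ))) * (1 + ∑ p ∈ P, (1 / (2 * (p:ℝ)))) := by nlinarith
      _ ≤ _ := by gcongr

lemma exists_primes (L : ℝ) : ∃ P : Finset ℕ, (∀ p ∈ P, p.Prime ∧ p ≠ 2) ∧
    L ≤ ∏ p ∈ P, (1 + 1 / (2 * (p:ℝ))) := by
  classical
  obtain ⟨u, hu⟩ : ∃ u : Finset Nat.Primes, 2 * L + 1 / 2 < ∑ p ∈ u, (1 / (p:ℝ)) := by
    by_contra h
    push Not at h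
    exact Nat.Primes.not_summable_one_div (summable_of_sum_le (fun p => by positivity) h)
  refine ⟨(u.image (fun p : Nat.Primes => (p : ℕ))).erase 2, ?_, ?_⟩
  · intro p hp
    rw [Finset.mem_erase, Finset.mem_image] at hp
    obtain ⟨h1, q, _, rfl⟩ := hp
    exact ⟨q.2, h1⟩
  · refine le_trans ?_ (prod_ge_sum _)
    have h1 : ∑ p ∈ u.image (fun p : Nat.Primes => (p : ℕ)), (1 / (p:ℝ)) = ∑ p ∈ u, (1 / (p:ℝ)) :=
      Finset.sum_image fun x _ y _ h => Subtype.ext h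
    have h2 : ∑ p ∈ u.image (fun p : Nat.Primes => (p : ℕ)), (1 / (p:ℝ)) ≤
        1 / 2 + ∑ p ∈ (u.image (fun p : Nat.Primes => (p : ℕ))).erase 2, (1 / (p:ℝ)) := by
      by_cases hm : 2 ∈ u.image (fun p : Nat.Primes => (p : ℕ))
      · rw [← Finset.add_sum_erase _ _ hm]
        push_cast
        exact le_rfl
      · rw [Finset.erase_eq_of_notMem hm]
        linarith
    have h3 : ∑ p ∈ (u.image (fun p : Nat.Primes => (p : ℕ))).erase 2, (1 / (2 * (p:ℝ))) =
        (1 / 2) * ∑ p ∈ (u.image (fun p : Nat.Primes => (p : ℕ))).erase 2, (1 / (p:ℝ)) := by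
      rw [Finset.mul_sum]
      refine Finset.sum_congr rfl fun p _ => ?_
      rw [one_div_mul_one_div]
    rw [h3]
    rw [h1] at h2
    linarith

lemma nsol_one {n : ℕ} (hn : n = 1) (m : ℕ) (a : ℤ) : 1 ≤ nsol (ZMod n) m a := by
  subst hn
  unfold nsol
  rw [Nat.one_le_iff_ne_zero]
  apply Nat.card_ne_zero.mpr
  refine ⟨⟨⟨fun _ => 0, Subsingleton.elim _ _⟩⟩, ?_⟩
  infer_instance

lemma nsol_prod_primes {m : ℕ} {a : ℤ} (h : (m = 3 ∧ a = -1) ∨ (m = 4 ∧ a = 0)) (P : Finset ℕ)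
    (hP : ∀ p ∈ P, p.Prime ∧ p ≠ 2) :
    0 < ∏ p ∈ P, p ∧ ((∏ p ∈ P, p : ℕ) : ℝ) ^ (m - 1) * ∏ p ∈ P, (1 + 1 / (2 * (p:ℝ))) ≤
      nsol (ZMod (∏ p ∈ P, p)) m a := by
  classical
  induction P using Finset.induction_on with
  | empty =>
    refine ⟨by simp, ?_⟩
    have h1 : (1:ℝ) ≤ nsol (ZMod (∏ p ∈ (∅ : Finset ℕ), p)) m a := by
      exact_mod_cast nsol_one Finset.prod_empty m a
    refine le_trans (le_of_eq ?_) h1
    simp
  | insert p P hp ih =>
    obtain ⟨ih1, ih2⟩ := ih fun q hq => hP q (Finset.mem_insert_of_mem hq)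
    obtain ⟨hpp, hp2⟩ := hP p (Finset.mem_insert_self p P)
    have hcop : Nat.Coprime p (∏ q ∈ P, q) := by
      apply Nat.Coprime.prod_right
      intro q hq
      rw [Nat.coprime_primes hpp (hP q (Finset.mem_insert_of_mem hq)).1]
      rintro rfl
      exact hp hq
    rw [Finset.prod_insert hp, Finset.prod_insert hp]
    refine ⟨Nat.mul_pos hpp.pos ih1, ?_⟩
    rw [nsol_congr (ZMod.chineseRemainder hcop), nsol_prod]
    have h1 := nsol_lower h p hpp hp2
    push_cast at ih2 ⊢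
    calc ((p:ℝ) * ∏ q ∈ P, (q:ℝ)) ^ (m - 1) *
          ((1 + 1 / (2 * (p:ℝ))) * ∏ p ∈ P, (1 + 1 / (2 * (p:ℝ))))
        = ((p : ℝ) ^ (m - 1) * (1 + 1 / (2 * p))) *
          ((∏ q ∈ P, (q:ℝ)) ^ (m - 1) * ∏ p ∈ P, (1 + 1 / (2 * (p:ℝ)))) := by
          rw [mul_pow]; ring
      _ ≤ (nsol (ZMod p) m a : ℝ) * nsol (ZMod (∏ p ∈ P, p)) m a := by
          gcongr

theorem exists_points {m : ℕ} {a : ℤ} (h : (m = 2 ∧ a = -1) ∨ (m = 3 ∧ a = 0)) (L : ℝ) :
    ∃ Q n : ℕ, ∃ Ξ : Finset (Fin (m + 1) → ℤ), 0 < Q ∧ n ≤ (m + 1) * Q ^ 2 ∧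
      (∀ ξ ∈ Ξ, ∑ i, ξ i ^ 2 = n) ∧ L * Q ^ (m - 1) ≤ Ξ.card ∧ Ξ.card ≤ Q ^ m := by
  classical
  have hm1 : 1 ≤ m := by rcases h with ⟨rfl, _⟩ | ⟨rfl, _⟩ <;> norm_num
  have hm4 : (m:ℝ) + 1 ≤ 4 := by rcases h with ⟨rfl, _⟩ | ⟨rfl, _⟩ <;> norm_num
  have h' : (m + 1 = 3 ∧ a = -1) ∨ (m + 1 = 4 ∧ a = 0) := by
    rcases h with ⟨rfl, h⟩ | ⟨rfl, h⟩
    · exact Or.inl ⟨rfl, h⟩
    · exact Or.inr ⟨rfl, h⟩
  obtain ⟨P, hP, hPL⟩ := exists_primes (4 * |L|)
  obtain ⟨hQ, hsol⟩ := nsol_prod_primes h' P hP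
  set Q := ∏ p ∈ P, p with hQdef
  have : NeZero Q := ⟨hQ.ne'⟩
  set U : Finset (Fin (m + 1) → ZMod Q) :=
    Finset.univ.filter fun x => ∑ i, x i ^ 2 = ((a : ℤ) : ZMod Q) with hU
  have hUcard : (nsol (ZMod Q) (m + 1) a) = U.card := by
    unfold nsol
    rw [Nat.card_eq_fintype_card, Fintype.card_subtype]
  set nn : (Fin (m + 1) → ZMod Q) → ℕ := fun x => ∑ i, (x i).val ^ 2 with hnn
  have hnlt : ∀ x, nn x < (m + 1) * Q ^ 2 := by
    intro x
    calc nn x < ∑ _i : Fin (m + 1), Q ^ 2 := by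
          refine Finset.sum_lt_sum_of_nonempty Finset.univ_nonempty fun i _ => ?_
          exact Nat.pow_lt_pow_left (ZMod.val_lt (x i)) (by norm_num)
      _ = (m + 1) * Q ^ 2 := by simp
  have hmod : ∀ x ∈ U, nn x % Q = ((a : ℤ) : ZMod Q).val := by
    intro x hx
    rw [hU, Finset.mem_filter] at hx
    rw [← ZMod.val_natCast, ← hx.2, hnn]
    congr 1
    push_cast
    refine Finset.sum_congr rfl fun i _ => ?_
    rw [ZMod.natCast_zmod_val]
  have hmaps : ∀ x ∈ U, nn x / Q ∈ Finset.range ((m + 1) * Q) := by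
    intro x _
    rw [Finset.mem_range, Nat.div_lt_iff_lt_mul hQ]
    calc nn x < (m + 1) * Q ^ 2 := hnlt x
      _ = _ := by ring
  obtain ⟨y, hy, hfib⟩ : ∃ y ∈ Finset.range ((m + 1) * Q),
      (U.card : ℝ) / ((m + 1) * Q) ≤ ((U.filter fun x => nn x / Q = y).card : ℝ) := by
    apply Finset.exists_le_of_sum_le
    · exact ⟨0, by rw [Finset.mem_range]; positivity⟩
    · rw [Finset.sum_const, Finset.card_range, nsmul_eq_mul]
      have h1 := Finset.card_eq_sum_card_fiberwise (f := fun x => nn x / Q) (s := U)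
        (t := Finset.range ((m + 1) * Q)) (fun x hx => hmaps x hx)
      have h2 : (U.card : ℝ) = ∑ y ∈ Finset.range ((m + 1) * Q),
          ((U.filter fun x => nn x / Q = y).card : ℝ) := by exact_mod_cast h1
      rw [← h2]
      have hQR : (0:ℝ) < Q := by exact_mod_cast hQ
      apply le_of_eq
      push_cast
      field_simp
  set r0 := ((a : ℤ) : ZMod Q).val with hr0
  set V := U.filter fun x => nn x / Q = y with hV
  have hVn : ∀ x ∈ V, nn x = Q * y + r0 := by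
    intro x hx
    rw [hV, Finset.mem_filter] at hx
    have h1 := Nat.div_add_mod (nn x) Q
    rw [hx.2, hmod x hx.1] at h1
    exact h1.symm
  set lift : (Fin (m + 1) → ZMod Q) → (Fin (m + 1) → ℤ) := fun x i => ((x i).val : ℤ) with hlift
  have hli : Function.Injective lift := by
    intro x x' hxx
    funext i
    have h1 := congrFun hxx i
    simp only [hlift] at h1
    exact ZMod.val_injective Q (by exact_mod_cast h1)
  refine ⟨Q, Q * y + r0, V.image lift, hQ, ?_, ?_, ?_, ?_⟩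
  · have hr : r0 < Q := ZMod.val_lt _
    rw [Finset.mem_range] at hy
    calc Q * y + r0 ≤ Q * y + Q := by omega
      _ = Q * (y + 1) := by ring
      _ ≤ Q * ((m + 1) * Q) := Nat.mul_le_mul_left _ hy
      _ = _ := by ring
  · intro ξ hξ
    rw [Finset.mem_image] at hξ
    obtain ⟨x, hx, rfl⟩ := hξ
    rw [← hVn x hx]
    simp only [hlift, hnn]
    push_cast
    rfl
  · rw [Finset.card_image_of_injective _ hli]
    refine le_trans ?_ hfib
    rw [hUcard] at hsol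
    have hQR : (0:ℝ) < Q := by exact_mod_cast hQ
    rw [le_div_iff₀ (by positivity)]
    refine le_trans ?_ hsol
    have e1 : m + 1 - 1 = (m - 1) + 1 := by omega
    rw [e1, pow_succ]
    calc L * (Q:ℝ) ^ (m - 1) * ((m + 1) * Q) ≤ |L| * (Q:ℝ) ^ (m - 1) * (4 * Q) := by
          have := le_abs_self L
          gcongr
      _ = (Q:ℝ) ^ (m - 1) * Q * (4 * |L|) := by ring
      _ ≤ _ := by gcongr
  · rw [Finset.card_image_of_injective _ hli]
    have h1 : V.card ≤ Fintype.card (Fin m → ZMod Q) := by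
      refine Finset.card_le_card_of_injOn (fun x => fun i : Fin m => x i.castSucc)
        (t := Finset.univ) (fun _ _ => Finset.mem_univ _) ?_
      intro x hx x' hx' hxx
      have hx1 := hVn x hx
      have hx2 := hVn x' hx'
      rw [hnn] at hx1 hx2
      simp only [Fin.sum_univ_castSucc] at hx1 hx2
      have h2 : ∀ i : Fin m, x i.castSucc = x' i.castSucc := fun i => congrFun hxx i
      simp only [h2] at hx1
      have h3 : (x (Fin.last m)).val ^ 2 = (x' (Fin.last m)).val ^ 2 := by omega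
      have h4 : (x (Fin.last m)).val = (x' (Fin.last m)).val := by
        exact Nat.pow_left_injective (n := 2) (by norm_num) h3
      funext i
      refine Fin.lastCases ?_ (fun j => ?_) i
      · exact ZMod.val_injective Q h4
      · exact h2 j
    simpa [ZMod.card] using h1

end Pool.Agent.H25.QL
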