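import Pool.Agent.H25.QL.Limit
import Pool.Agent.H25.QL.Points

set_option autoImplicit false

/-! The choice of parameters. -/

namespace Pool.Agent.H25.QL

open MeasureTheory Filter Topology

lemma exists_k {m N : ℕ} (hm : 0 < m) (hN : 0 < N) : ∃ k, 2 * k ^ m < N ∧ N ≤ 2 * (k + 1) ^ m := by
  classical
  have hex : ∃ k, N ≤ 2 * (k + 1) ^ m := by
    refine ⟨N, ?_⟩
    have : N + 1 ≤ (N + 1) ^ m := Nat.le_self_pow hm.ne' _
    omega
  refine ⟨Nat.find hex, ?_, Nat.find_spec hex⟩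
  rcases Nat.eq_zero_or_pos (Nat.find hex) with h0 | hpos
  · rw [h0, zero_pow hm.ne']; omega
  · obtain ⟨j, hj⟩ : ∃ j, Nat.find hex = j + 1 := ⟨Nat.find hex - 1, by omega⟩
    have h1 := Nat.find_min hex (m := j) (by omega)
    rw [hj]
    omega

lemma exists_k0 (m : ℕ) {c : ℝ} (hc : 0 < c) :
    ∃ k0 : ℕ, ∀ k : ℕ, k0 ≤ k → 8 * ((k:ℝ) + 1) ^ m * Real.exp (-(k:ℝ)) < c := by
  have h1 := Real.tendsto_pow_mul_exp_neg_atTop_nhds_zero m
  have h2 : Tendsto (fun k : ℕ => (k:ℝ) + 1) atTop atTop :=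
    tendsto_atTop_add_const_right _ _ tendsto_natCast_atTop_atTop
  have h3 := (h1.comp h2).const_mul (8 * Real.exp 1)
  rw [mul_zero] at h3
  have h4 := h3.eventually (gt_mem_nhds hc)
  obtain ⟨k0, hk0⟩ := eventually_atTop.mp h4
  refine ⟨k0, fun k hk => ?_⟩
  have h5 := hk0 k hk
  simp only [Function.comp_apply] at h5
  have h6 : Real.exp (-(k:ℝ)) = Real.exp 1 * Real.exp (-((k:ℝ) + 1)) := by
    rw [← Real.exp_add]; congr 1; ring
  rw [h6]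
  calc 8 * ((k:ℝ) + 1) ^ m * (Real.exp 1 * Real.exp (-((k:ℝ) + 1))) =
      8 * Real.exp 1 * (((k:ℝ) + 1) ^ m * Real.exp (-((k:ℝ) + 1))) := by ring
    _ < c := h5

theorem main {m : ℕ} {a : ℤ} (h : (m = 2 ∧ a = -1) ∨ (m = 3 ∧ a = 0)) {c C : ℝ} (hc : 0 < c)
    (hC : 0 < C) : ∃ r : ℝ, 0 < r ∧ r < 1 ∧
      mQ (m + 2) r < ENNReal.ofReal (c * Real.exp (-(C * (r ^ (m - 1))⁻¹))) := by
  have hm1 : 1 ≤ m := by omega
  have hm4 : m + 1 ≤ 4 := by omega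
  obtain ⟨k0, hk0⟩ := exists_k0 m hc
  set K : ℝ := (2 * Real.exp 2) ^ (m - 1) * 2 ^ (m + 1) with hK
  have hKpos : 0 < K := by positivity
  set L : ℝ := max (C * K) (2 * ((k0:ℝ) + 1) ^ m + 1) with hL
  have hL1 : C * K ≤ L := le_max_left _ _
  have hL2 : 2 * ((k0:ℝ) + 1) ^ m + 1 ≤ L := le_max_right _ _
  have hLpos : 0 < L := lt_of_lt_of_le (by positivity) hL2
  obtain ⟨Q, n, Ξ, hQ, hn, hΞ, hN1, hN2⟩ := exists_points h L
  have hQ1 : (1:ℝ) ≤ Q := by exact_mod_cast hQ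
  have hLN : L ≤ (Ξ.card : ℝ) := by
    refine le_trans ?_ hN1
    have : (1:ℝ) ≤ (Q:ℝ) ^ (m - 1) := one_le_pow₀ hQ1
    nlinarith
  have hNpos : 0 < Ξ.card := by
    have : (0:ℝ) < Ξ.card := lt_of_lt_of_le hLpos hLN
    exact_mod_cast this
  obtain ⟨k, hk1, hk2⟩ := exists_k (m := m) (by omega) hNpos
  have hk2' : (Ξ.card : ℝ) ≤ 2 * ((k:ℝ) + 1) ^ m := by exact_mod_cast hk2
  have hkk0 : k0 < k := by
    by_contra hcon
    push Not at hcon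
    have h1 : ((k:ℝ) + 1) ^ m ≤ ((k0:ℝ) + 1) ^ m := by
      have : (k:ℝ) ≤ k0 := by exact_mod_cast hcon
      gcongr
    linarith
  have hkpos : 0 < k := by omega
  have hkr : (0:ℝ) < k := by exact_mod_cast hkpos
  have hkQ : k < Q := by
    have h1 : k ^ m < Q ^ m := by omega
    exact lt_of_pow_lt_pow_left₀ m (Nat.zero_le _) h1
  have hkQ' : (k:ℝ) < Q := by exact_mod_cast hkQ
  have hQpos : (0:ℝ) < Q := by linarith
  have he2 : (2:ℝ) ≤ Real.exp 2 := by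
    have := Real.add_one_le_exp (2:ℝ)
    linarith
  obtain ⟨co, hco, hmom⟩ := exists_coeff Ξ hΞ hk1
  set r : ℝ := k / (2 * Real.exp 2 * Q) with hr
  have hrpos : 0 < r := by positivity
  have hr1 : r < 1 := by
    rw [hr, div_lt_one (by positivity)]
    nlinarith
  refine ⟨r, hrpos, hr1, ?_⟩
  have hrk : 2 * Q * r ≤ k / Real.exp 2 := by
    refine le_of_eq ?_
    rw [hr]
    field_simp
  have hmq := mQ_le Ξ hΞ co hco (r := r) (S := 2 * Real.exp (-(k:ℝ)))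
    fun x hx => small_on_ball Ξ co hm4 hn hΞ hmom hrpos.le hrk hx
  have hinv : (r ^ (m - 1))⁻¹ = (2 * Real.exp 2) ^ (m - 1) * ((Q:ℝ) ^ (m - 1) / (k:ℝ) ^ (m - 1)) := by
    rw [hr, div_pow, mul_pow, inv_div]
    ring
  have hQk : (Q:ℝ) ^ (m - 1) / (k:ℝ) ^ (m - 1) ≤ 2 ^ (m + 1) * k / L := by
    rw [div_le_div_iff₀ (by positivity) hLpos]
    have h1 : ((k:ℝ) + 1) ^ m ≤ (2 * k) ^ m := by
      have : (1:ℝ) ≤ k := by exact_mod_cast hkpos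
      gcongr
      linarith
    have h2 : (k:ℝ) * k ^ (m - 1) = k ^ m := by
      rw [← pow_succ']; congr 1; omega
    calc (Q:ℝ) ^ (m - 1) * L = L * (Q:ℝ) ^ (m - 1) := by ring
      _ ≤ Ξ.card := hN1
      _ ≤ 2 * ((k:ℝ) + 1) ^ m := hk2'
      _ ≤ 2 * (2 * k) ^ m := by linarith
      _ = 2 ^ (m + 1) * k ^ m := by rw [mul_pow]; ring
      _ = 2 ^ (m + 1) * k * k ^ (m - 1) := by rw [mul_assoc, h2]
  have hfin : C * (r ^ (m - 1))⁻¹ ≤ k := by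
    rw [hinv]
    calc C * ((2 * Real.exp 2) ^ (m - 1) * ((Q:ℝ) ^ (m - 1) / (k:ℝ) ^ (m - 1))) ≤
        C * ((2 * Real.exp 2) ^ (m - 1) * (2 ^ (m + 1) * k / L)) := by gcongr
      _ = (C * K) * k / L := by rw [hK]; ring
      _ ≤ L * k / L := by gcongr
      _ = k := by field_simp
  refine lt_of_le_of_lt hmq ((ENNReal.ofReal_lt_ofReal_iff (by positivity)).mpr ?_)
  calc (2 * Real.exp (-(k:ℝ))) ^ 2 * (Ξ.card : ℝ) ≤ (2 * Real.exp (-(k:ℝ))) ^ 2 * (2 * ((k:ℝ) + 1) ^ m) := by gcongr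
    _ = (8 * ((k:ℝ) + 1) ^ m * Real.exp (-(k:ℝ))) * Real.exp (-(k:ℝ)) := by ring
    _ < c * Real.exp (-(k:ℝ)) :=
        mul_lt_mul_of_pos_right (hk0 k hkk0.le) (Real.exp_pos _)
    _ ≤ c * Real.exp (-(C * (r ^ (m - 1))⁻¹)) := by
        have : Real.exp (-(k:ℝ)) ≤ Real.exp (-(C * (r ^ (m - 1))⁻¹)) := by
          rw [Real.exp_le_exp]; linarith
        gcongr

end Pool.Agent.H25.QL
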