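import Pool.Agent.H25.QL.Small

set_option autoImplicit false

/-! A quantum limit with small mass on a ball. -/

namespace Pool.Agent.H25.QL

open MeasureTheory Filter Topology

lemma ball_isOpen (d : ℕ) (r : ℝ) : IsOpen (ball d r) := by
  have h1 : IsOpen {x : Fin d → ℝ | ∑ i, x i ^ 2 < r ^ 2} :=
    isOpen_lt (by fun_prop) continuous_const
  have h2 : IsOpenMap (proj (d := d)) := by
    have : IsOpenMap (Pi.map (fun (_ : Fin d) (s : ℝ) => (s : AddCircle (2 * Real.pi)))) := by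
      refine IsOpenMap.piMap (fun i => ?_) (Eventually.of_forall fun i => ?_)
      · exact QuotientAddGroup.isOpenMap_coe
      · exact QuotientAddGroup.mk_surjective
    exact this
  exact h2 _ h1

lemma volume_torus (d : ℕ) : (volume : Measure (Torus d)).real Set.univ = (2 * Real.pi) ^ d := by
  have h := parseval (d := d) ({0} : Finset (Fin d → ℤ)) id Function.injective_id (fun _ => 1)
  have e : ∀ x : Torus d, ‖tp ({0} : Finset (Fin d → ℤ)) id (fun _ => (1:ℂ)) x‖ ^ 2 = 1 := by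
    intro x
    unfold tp
    rw [Finset.sum_singleton, one_mul, norm_ch, one_pow]
  simp_rw [e] at h
  rw [integral_const] at h
  simpa using h

lemma mQ_le_of {d : ℕ} {μ : Measure (Torus d)} (hμ : IsQuantumLimit μ) {r S : ℝ}
    (h : μ (ball d r) ≤ ENNReal.ofReal S * volume (ball d r)) : mQ d r ≤ ENNReal.ofReal S :=
  (iInf₂_le μ hμ).trans (ENNReal.div_le_of_le_mul h)

lemma mQ_le {m n : ℕ} (Ξ : Finset (Fin (m + 1) → ℤ)) (hΞ : ∀ ξ ∈ Ξ, ∑ i, ξ i ^ 2 = (n : ℤ))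
    (a : (Fin (m + 1) → ℤ) → ℂ) (ha : ∃ ξ ∈ Ξ, a ξ ≠ 0) {r S : ℝ}
    (hS : ∀ x ∈ ball (m + 2) r, ‖tp Ξ id a (fun i => x i.succ)‖ ≤ S * ∑ ξ ∈ Ξ, ‖a ξ‖) :
    mQ (m + 2) r ≤ ENNReal.ofReal (S ^ 2 * Ξ.card) := by
  classical
  obtain ⟨ξ₀, hξ₀, hne⟩ := ha
  set A : ℝ := ∑ ξ ∈ Ξ, ‖a ξ‖ ^ 2 with hA
  have hApos : 0 < A := by
    refine Finset.sum_pos' (fun ξ _ => sq_nonneg _) ⟨ξ₀, hξ₀, ?_⟩
    have : 0 < ‖a ξ₀‖ := norm_pos_iff.mpr hne
    positivity
  set b : (Fin (m + 1) → ℤ) → ℂ := fun ξ => a ξ / ((Real.sqrt A : ℝ) : ℂ) with hb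
  have hsq : Real.sqrt A ^ 2 = A := Real.sq_sqrt hApos.le
  have hspos : 0 < Real.sqrt A := Real.sqrt_pos.mpr hApos
  have hnb : ∀ ξ, ‖b ξ‖ ^ 2 = ‖a ξ‖ ^ 2 / A := by
    intro ξ
    rw [hb]
    simp only [norm_div, Complex.norm_real, Real.norm_eq_abs, abs_of_pos hspos, div_pow, hsq]
  have hsumb : ∑ ξ ∈ Ξ, ‖b ξ‖ ^ 2 = 1 := by
    simp_rw [hnb]
    rw [← Finset.sum_div, ← hA, div_self hApos.ne']
  set W : Torus (m + 2) → ℝ := fun x => ‖tp Ξ id b (fun i => x i.succ)‖ ^ 2 with hW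
  have hWu : ∀ (j : ℤ) (x : Torus (m + 2)), ‖tp Ξ (fr j) b x‖ ^ 2 = W x := by
    intro j x
    rw [norm_tp_fr]
  have hWc : Continuous W := by
    have : W = fun x => ‖tp Ξ (fr 0) b x‖ ^ 2 := funext fun x => (hWu 0 x).symm
    rw [this]
    exact ((tp_continuous _ _ _).norm).pow 2
  have hWint : ∫ x, W x = (2 * Real.pi) ^ (m + 2) := by
    have h := parseval (d := m + 2) Ξ (fr 0) (fr_injective 0) b
    simp_rw [hWu] at h
    rw [h, hsumb, mul_one]
  have hWi : Integrable W := hWc.integrable_of_hasCompactSupport (HasCompactSupport.of_compactSpace _)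
  have hWb : ∀ x ∈ ball (m + 2) r, W x ≤ S ^ 2 * Ξ.card := by
    intro x hx
    have h1 : tp Ξ id b (fun i => x i.succ) =
        tp Ξ id a (fun i => x i.succ) / ((Real.sqrt A : ℝ) : ℂ) := by
      unfold tp
      rw [Finset.sum_div]
      refine Finset.sum_congr rfl fun ξ _ => ?_
      rw [hb]; ring
    have h2 : W x = ‖tp Ξ id a (fun i => x i.succ)‖ ^ 2 / A := by
      rw [hW]
      simp only [h1, norm_div, Complex.norm_real, Real.norm_eq_abs, abs_of_pos hspos, div_pow, hsq]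
    rw [h2, div_le_iff₀ hApos]
    have h3 := pow_le_pow_left₀ (norm_nonneg _) (hS x hx) 2
    have h4 : (∑ ξ ∈ Ξ, ‖a ξ‖) ^ 2 ≤ Ξ.card * A := sq_sum_le_card_mul_sum_sq
    calc ‖tp Ξ id a (fun i => x i.succ)‖ ^ 2 ≤ (S * ∑ ξ ∈ Ξ, ‖a ξ‖) ^ 2 := h3
      _ = S ^ 2 * (∑ ξ ∈ Ξ, ‖a ξ‖) ^ 2 := by ring
      _ ≤ S ^ 2 * (Ξ.card * A) := by gcongr
      _ = S ^ 2 * Ξ.card * A := by ring
  set μ : Measure (Torus (m + 2)) := volume.withDensity fun x => ENNReal.ofReal (W x) with hμ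
  have hfin : IsFiniteMeasure μ := isFiniteMeasure_withDensity_ofReal hWi.2
  have hql : IsQuantumLimit μ := by
    refine ⟨hfin, fun j => Real.sqrt (((j ^ 2 + n : ℕ) : ℝ)), fun j => tp Ξ (fr (j:ℤ)) b,
      ?_, ?_, ?_, ?_, ?_⟩
    · refine tendsto_atTop_mono (f := fun j : ℕ => (j : ℝ)) (fun j => ?_)
        tendsto_natCast_atTop_atTop
      refine Real.le_sqrt_of_sq_le ?_
      push_cast
      have : (0:ℝ) ≤ n := Nat.cast_nonneg n
      linarith
    · intro j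
      exact ⟨Real.sqrt_nonneg _, j ^ 2 + n, Real.sq_sqrt (Nat.cast_nonneg _)⟩
    · intro j
      refine ⟨fun N => tp_contDiff _ _ _ N, fun x => ?_⟩
      have h1 : ∀ ξ ∈ Ξ, ∑ i, fr (j:ℤ) ξ i ^ 2 = ((j ^ 2 + n : ℕ) : ℤ) := by
        intro ξ hξ
        rw [fr_sum, hΞ ξ hξ]
        push_cast
        ring
      rw [lap_tp Ξ (fr (j:ℤ)) b h1 x]
      congr 1
      rw [← Complex.ofReal_pow, Real.sq_sqrt (Nat.cast_nonneg _)]
      simp
    · intro j
      simp_rw [hWu]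
      rw [average_eq, volume_torus, hWint, smul_eq_mul]
      exact inv_mul_cancel₀ (by positivity)
    · intro g hg
      have h1 : ∫ x, g x ∂μ = ∫ x, g x * W x := by
        rw [hμ, integral_withDensity_eq_integral_toReal_smul
          (hWc.measurable.ennreal_ofReal) (Eventually.of_forall fun x => ENNReal.ofReal_lt_top)]
        refine integral_congr_ae (Eventually.of_forall fun x => ?_)
        have : (ENNReal.ofReal (W x)).toReal = W x := ENNReal.toReal_ofReal (sq_nonneg _)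
        simp only [this, smul_eq_mul]
        ring
      simp_rw [hWu]
      rw [h1]
      exact tendsto_const_nhds
  refine mQ_le_of hql ?_
  rw [hμ, withDensity_apply _ (ball_isOpen _ _).measurableSet]
  calc ∫⁻ x in ball (m + 2) r, ENNReal.ofReal (W x) ≤
      ∫⁻ x in ball (m + 2) r, ENNReal.ofReal (S ^ 2 * Ξ.card) := by
        refine setLIntegral_mono' (ball_isOpen _ _).measurableSet fun x hx => ?_
        exact ENNReal.ofReal_le_ofReal (hWb x hx)
    _ = ENNReal.ofReal (S ^ 2 * Ξ.card) * volume (ball (m + 2) r) := by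
        rw [setLIntegral_const]

end Pool.Agent.H25.QL
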