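import Mathlib

set_option autoImplicit false

/-! Exponential sums over a sphere vanishing to high order at the origin. -/

namespace Pool.Agent.H25.QL

open Finset

/-- the function `ξ ↦ ∏_{i<m} ξ_i^{α_i} · ξ_m^e` -/
def mono {m : ℕ} (α : Fin m → ℕ) (e : ℕ) (ξ : Fin (m + 1) → ℤ) : ℂ :=
  (∏ i : Fin m, (ξ i.castSucc : ℂ) ^ α i) * (ξ (Fin.last m) : ℂ) ^ e

/-- restricted to the sphere of square radius `n` -/
abbrev Sph (m n : ℕ) : Type := {ξ : Fin (m + 1) → ℤ // ∑ i, ξ i ^ 2 = (n : ℤ)}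

/-- functions on the sphere given by reduced polynomials of degree at most `l` -/
def Vl (m n l : ℕ) : Submodule ℂ (Sph m n → ℂ) :=
  Submodule.span ℂ {g | ∃ (α : Fin m → ℕ) (e : ℕ), e ≤ 1 ∧ ∑ i, α i + e ≤ l ∧
    g = fun ξ => mono α e ξ.1}

lemma Vl_mono {m n l l' : ℕ} (h : l ≤ l') : Vl m n l ≤ Vl m n l' := by
  apply Submodule.span_mono
  rintro g ⟨α, e, h1, h2, h3⟩
  exact ⟨α, e, h1, h2.trans h, h3⟩

lemma mul_coord_castSucc {m n l : ℕ} (j : Fin m) {g : Sph m n → ℂ} (hg : g ∈ Vl m n l) :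
    (fun ξ => (ξ.1 j.castSucc : ℂ) * g ξ) ∈ Vl m n (l + 1) := by
  unfold Vl at hg
  induction hg using Submodule.span_induction with
  | mem g hg =>
    obtain ⟨α, e, h1, h2, rfl⟩ := hg
    apply Submodule.subset_span
    refine ⟨Function.update α j (α j + 1), e, h1, ?_, ?_⟩
    · rw [Finset.sum_update_of_mem (Finset.mem_univ j)]
      have := Finset.add_sum_erase Finset.univ α (Finset.mem_univ j)
      rw [← this] at h2
      rw [Finset.sdiff_singleton_eq_erase]
      omega
    · funext ξ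
      unfold mono
      have e1 : (∏ i : Fin m, (ξ.1 i.castSucc : ℂ) ^ (Function.update α j (α j + 1)) i) =
          (ξ.1 j.castSucc : ℂ) * ∏ i : Fin m, (ξ.1 i.castSucc : ℂ) ^ α i := by
        rw [← Finset.mul_prod_erase Finset.univ _ (Finset.mem_univ j),
          ← Finset.mul_prod_erase Finset.univ (fun i => (ξ.1 i.castSucc : ℂ) ^ α i)
            (Finset.mem_univ j)]
        rw [Function.update_self, pow_succ]
        have : ∏ i ∈ Finset.univ.erase j, (ξ.1 i.castSucc : ℂ) ^ (Function.update α j (α j + 1)) i =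
            ∏ i ∈ Finset.univ.erase j, (ξ.1 i.castSucc : ℂ) ^ α i := by
          refine Finset.prod_congr rfl fun i hi => ?_
          rw [Function.update_of_ne (Finset.ne_of_mem_erase hi)]
        rw [this]
        ring
      rw [e1]
      ring
  | zero =>
    have : (fun ξ : Sph m n => (ξ.1 j.castSucc : ℂ) * (0 : Sph m n → ℂ) ξ) = 0 := by
      funext ξ
      simp
    rw [this]
    exact Submodule.zero_mem _
  | add g h _ _ ihg ihh =>
    have : (fun ξ : Sph m n => (ξ.1 j.castSucc : ℂ) * (g + h) ξ) =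
        (fun ξ => (ξ.1 j.castSucc : ℂ) * g ξ) + fun ξ => (ξ.1 j.castSucc : ℂ) * h ξ := by
      funext ξ
      simp [mul_add]
    rw [this]
    exact Submodule.add_mem _ ihg ihh
  | smul c g _ ihg =>
    have : (fun ξ : Sph m n => (ξ.1 j.castSucc : ℂ) * (c • g) ξ) =
        c • fun ξ => (ξ.1 j.castSucc : ℂ) * g ξ := by
      funext ξ
      simp only [Pi.smul_apply, smul_eq_mul]
      ring
    rw [this]
    exact Submodule.smul_mem _ _ ihg

lemma mul_coord_last {m n l : ℕ} {g : Sph m n → ℂ} (hg : g ∈ Vl m n l) :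
    (fun ξ => (ξ.1 (Fin.last m) : ℂ) * g ξ) ∈ Vl m n (l + 1) := by
  unfold Vl at hg
  induction hg using Submodule.span_induction with
  | mem g hg =>
    obtain ⟨α, e, h1, h2, rfl⟩ := hg
    rcases Nat.le_one_iff_eq_zero_or_eq_one.mp h1 with rfl | rfl
    · apply Submodule.subset_span
      refine ⟨α, 1, le_rfl, by omega, ?_⟩
      funext ξ
      unfold mono
      ring
    · -- use the equation of the sphere
      have h0 : (fun ξ : Sph m n => mono α 0 ξ.1) ∈ Vl m n (l - 1) := by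
        apply Submodule.subset_span
        exact ⟨α, 0, by norm_num, by omega, rfl⟩
      have hlpos : l - 1 + 1 = l := by omega
      have hj : ∀ j : Fin m, (fun ξ : Sph m n => (ξ.1 j.castSucc : ℂ) *
          ((ξ.1 j.castSucc : ℂ) * mono α 0 ξ.1)) ∈ Vl m n (l + 1) := by
        intro j
        have h3 := mul_coord_castSucc j (mul_coord_castSucc j h0)
        rw [hlpos] at h3
        exact h3
      have hsum : (∑ j : Fin m, fun ξ : Sph m n => (ξ.1 j.castSucc : ℂ) *
          ((ξ.1 j.castSucc : ℂ) * mono α 0 ξ.1)) ∈ Vl m n (l + 1) :=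
        Submodule.sum_mem _ fun j _ => hj j
      have h0' : (n : ℂ) • (fun ξ : Sph m n => mono α 0 ξ.1) ∈ Vl m n (l + 1) :=
        Submodule.smul_mem _ _ (Vl_mono (by omega) h0)
      have e : (fun ξ : Sph m n => (ξ.1 (Fin.last m) : ℂ) * mono α 1 ξ.1) =
          (n : ℂ) • (fun ξ : Sph m n => mono α 0 ξ.1) -
          ∑ j : Fin m, fun ξ : Sph m n => (ξ.1 j.castSucc : ℂ) *
          ((ξ.1 j.castSucc : ℂ) * mono α 0 ξ.1) := by
        funext ξ
        have hξ : (∑ j : Fin m, (ξ.1 j.castSucc : ℂ) ^ 2) + (ξ.1 (Fin.last m) : ℂ) ^ 2 = n := by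
          have := ξ.2
          rw [Fin.sum_univ_castSucc] at this
          exact_mod_cast this
        simp only [Pi.sub_apply, Pi.smul_apply, smul_eq_mul, Finset.sum_apply]
        have e2 : ∑ j : Fin m, (ξ.1 j.castSucc : ℂ) * ((ξ.1 j.castSucc : ℂ) * mono α 0 ξ.1) =
            (∑ j : Fin m, (ξ.1 j.castSucc : ℂ) ^ 2) * mono α 0 ξ.1 := by
          rw [Finset.sum_mul]
          refine Finset.sum_congr rfl fun j _ => ?_
          ring
        rw [e2, ← hξ]
        unfold mono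
        ring
      rw [e]
      exact Submodule.sub_mem _ h0' hsum
  | zero =>
    have : (fun ξ : Sph m n => (ξ.1 (Fin.last m) : ℂ) * (0 : Sph m n → ℂ) ξ) = 0 := by
      funext ξ
      simp
    rw [this]
    exact Submodule.zero_mem _
  | add g h _ _ ihg ihh =>
    have : (fun ξ : Sph m n => (ξ.1 (Fin.last m) : ℂ) * (g + h) ξ) =
        (fun ξ => (ξ.1 (Fin.last m) : ℂ) * g ξ) + fun ξ => (ξ.1 (Fin.last m) : ℂ) * h ξ := by
      funext ξ
      simp [mul_add]
    rw [this]
    exact Submodule.add_mem _ ihg ihh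
  | smul c g _ ihg =>
    have : (fun ξ : Sph m n => (ξ.1 (Fin.last m) : ℂ) * (c • g) ξ) =
        c • fun ξ => (ξ.1 (Fin.last m) : ℂ) * g ξ := by
      funext ξ
      simp only [Pi.smul_apply, smul_eq_mul]
      ring
    rw [this]
    exact Submodule.smul_mem _ _ ihg

lemma mul_coord {m n l : ℕ} (j : Fin (m + 1)) {g : Sph m n → ℂ} (hg : g ∈ Vl m n l) :
    (fun ξ => (ξ.1 j : ℂ) * g ξ) ∈ Vl m n (l + 1) := by
  refine Fin.lastCases ?_ (fun i => ?_) j
  · exact mul_coord_last hg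
  · exact mul_coord_castSucc i hg

lemma pow_mem {m n : ℕ} (y : Fin (m + 1) → ℝ) (l : ℕ) :
    (fun ξ : Sph m n => (∑ i, (ξ.1 i : ℂ) * (y i : ℂ)) ^ l) ∈ Vl m n l := by
  induction l with
  | zero =>
    apply Submodule.subset_span
    refine ⟨fun _ => 0, 0, by norm_num, by simp, ?_⟩
    funext ξ
    simp [mono]
  | succ l ih =>
    have e : (fun ξ : Sph m n => (∑ i, (ξ.1 i : ℂ) * (y i : ℂ)) ^ (l + 1)) =
        ∑ i, (y i : ℂ) • fun ξ : Sph m n => (ξ.1 i : ℂ) * (∑ i, (ξ.1 i : ℂ) * (y i : ℂ)) ^ l := by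
      funext ξ
      simp only [Finset.sum_apply, Pi.smul_apply, smul_eq_mul]
      rw [pow_succ, mul_comm, Finset.sum_mul]
      refine Finset.sum_congr rfl fun i _ => ?_
      ring
    rw [e]
    exact Submodule.sum_mem _ fun i _ => Submodule.smul_mem _ _ (mul_coord i ih)

/-- Existence of coefficients killing all moments of order less than `k`. -/
theorem exists_coeff {m n k : ℕ} (Ξ : Finset (Fin (m + 1) → ℤ)) (hΞ : ∀ ξ ∈ Ξ, ∑ i, ξ i ^ 2 = (n : ℤ))
    (hk : 2 * k ^ m < Ξ.card) :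
    ∃ a : (Fin (m + 1) → ℤ) → ℂ, (∃ ξ ∈ Ξ, a ξ ≠ 0) ∧
      ∀ (y : Fin (m + 1) → ℝ) (l : ℕ), l < k →
        ∑ ξ ∈ Ξ, a ξ * (∑ i, (ξ i : ℂ) * (y i : ℂ)) ^ l = 0 := by
  classical
  let Φ : (Ξ → ℂ) →ₗ[ℂ] ((Fin m → Fin k) × Fin 2 → ℂ) :=
    { toFun := fun a j => ∑ ξ : Ξ, a ξ * mono (fun i => (j.1 i : ℕ)) (j.2 : ℕ) ξ.1
      map_add' := by
        intro a b
        funext j
        simp only [Pi.add_apply, add_mul, Finset.sum_add_distrib]
      map_smul' := by
        intro c a
        funext j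
        simp only [Pi.smul_apply, smul_eq_mul, RingHom.id_apply, Finset.mul_sum, mul_assoc] }
  have hker : LinearMap.ker Φ ≠ ⊥ := by
    apply LinearMap.ker_ne_bot_of_finrank_lt
    rw [Module.finrank_fintype_fun_eq_card, Module.finrank_fintype_fun_eq_card]
    simp only [Fintype.card_prod, Fintype.card_fun, Fintype.card_fin, Fintype.card_coe]
    omega
  obtain ⟨b, hb, hb0⟩ := Submodule.exists_mem_ne_zero_of_ne_bot hker
  rw [LinearMap.mem_ker] at hb
  set a : (Fin (m + 1) → ℤ) → ℂ := fun ξ => if h : ξ ∈ Ξ then b ⟨ξ, h⟩ else 0 with ha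
  refine ⟨a, ?_, ?_⟩
  · by_contra h
    push Not at h
    apply hb0
    funext ξ
    have := h ξ.1 ξ.2
    simp only [ha, ξ.2, dif_pos] at this
    exact this
  · intro y l hl
    -- the functional
    have key : ∀ g ∈ Vl m n l, ∑ ξ : Ξ, b ξ * g ⟨ξ.1, hΞ ξ.1 ξ.2⟩ = 0 := by
      intro g hg
      unfold Vl at hg
      induction hg using Submodule.span_induction with
      | mem g hg =>
        obtain ⟨α, e, h1, h2, rfl⟩ := hg
        have hα : ∀ i, α i < k := by
          intro i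
          have := Finset.single_le_sum (f := α) (fun _ _ => Nat.zero_le _) (Finset.mem_univ i)
          omega
        have h3 := congrFun hb (fun i => ⟨α i, hα i⟩, ⟨e, by omega⟩)
        exact h3
      | zero => simp
      | add g h _ _ ihg ihh =>
        simp only [Pi.add_apply, mul_add, Finset.sum_add_distrib, ihg, ihh, add_zero]
      | smul c g _ ihg =>
        have : ∑ ξ : Ξ, b ξ * (c • g) ⟨ξ.1, hΞ ξ.1 ξ.2⟩ =
            c * ∑ ξ : Ξ, b ξ * g ⟨ξ.1, hΞ ξ.1 ξ.2⟩ := by
          rw [Finset.mul_sum]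
          refine Finset.sum_congr rfl fun ξ _ => ?_
          simp only [Pi.smul_apply, smul_eq_mul]
          ring
        rw [this, ihg, mul_zero]
    have h4 := key _ (pow_mem y l)
    rw [← Finset.sum_coe_sort Ξ]
    rw [← h4]
    refine Finset.sum_congr rfl fun ξ _ => ?_
    simp only [ha, ξ.2, dif_pos]

end Pool.Agent.H25.QL
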