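import Pool.Agent.H25.QL.Torus
import Pool.Agent.H25.QL.Moment

set_option autoImplicit false

/-! Smallness near `0` of a trigonometric sum whose moments vanish. -/

namespace Pool.Agent.H25.QL

open MeasureTheory

lemma pow_div_factorial_small {x : ℝ} {k : ℕ} (hx0 : 0 ≤ x) (hx : x ≤ k / Real.exp 2) :
    x ^ k / (k.factorial : ℝ) ≤ Real.exp (-(k:ℝ)) := by
  have h1 : x ^ k / (k.factorial : ℝ) ≤ (k / Real.exp 2) ^ k / (k.factorial : ℝ) := by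
    have := pow_le_pow_left₀ hx0 hx k
    gcongr
  have h2 : ((k:ℝ) / Real.exp 2) ^ k / (k.factorial : ℝ) =
      ((k:ℝ) ^ k / (k.factorial : ℝ)) / (Real.exp 2) ^ k := by
    rw [div_pow]; field_simp
  have h3 : ((k:ℝ) ^ k / (k.factorial : ℝ)) ≤ Real.exp k :=
    Real.pow_div_factorial_le_exp _ (Nat.cast_nonneg k) k
  have h4 : (Real.exp 2) ^ k = Real.exp (2 * k) := by
    rw [← Real.exp_nat_mul]; ring_nf
  rw [h2, h4] at h1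
  refine h1.trans ?_
  rw [div_le_iff₀ (Real.exp_pos _), ← Real.exp_add]
  refine h3.trans (le_of_eq ?_)
  congr 1
  ring

lemma small_sum {ι : Type} (Ξ : Finset ι) (a : ι → ℂ) (θ : ι → ℝ) {k : ℕ} {δ : ℝ}
    (hδ : δ ≤ k / Real.exp 2) (hθ : ∀ ξ ∈ Ξ, |θ ξ| ≤ δ)
    (hm : ∀ l, l < k → ∑ ξ ∈ Ξ, a ξ * (θ ξ : ℂ) ^ l = 0) :
    ‖∑ ξ ∈ Ξ, a ξ * Complex.exp (Complex.I * (θ ξ : ℂ))‖ ≤
      2 * Real.exp (-(k:ℝ)) * ∑ ξ ∈ Ξ, ‖a ξ‖ := by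
  have h1 : ∑ ξ ∈ Ξ, a ξ * Complex.exp (Complex.I * (θ ξ : ℂ)) =
      ∑ ξ ∈ Ξ, a ξ * (Complex.exp (Complex.I * (θ ξ : ℂ)) -
        ∑ l ∈ Finset.range k, (Complex.I * (θ ξ : ℂ)) ^ l / (l.factorial : ℂ)) := by
    have h2 : ∑ ξ ∈ Ξ, a ξ * ∑ l ∈ Finset.range k,
        (Complex.I * (θ ξ : ℂ)) ^ l / (l.factorial : ℂ) = 0 := by
      simp_rw [Finset.mul_sum]
      rw [Finset.sum_comm]
      refine Finset.sum_eq_zero fun l hl => ?_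
      have h3 : ∑ ξ ∈ Ξ, a ξ * ((Complex.I * (θ ξ : ℂ)) ^ l / (l.factorial : ℂ)) =
          (Complex.I ^ l / (l.factorial : ℂ)) * ∑ ξ ∈ Ξ, a ξ * (θ ξ : ℂ) ^ l := by
        rw [Finset.mul_sum]
        refine Finset.sum_congr rfl fun ξ _ => ?_
        rw [mul_pow]; ring
      rw [h3, hm l (Finset.mem_range.mp hl), mul_zero]
    simp_rw [mul_sub]
    rw [Finset.sum_sub_distrib, h2, sub_zero]
  rw [h1]
  refine (norm_sum_le _ _).trans ?_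
  rw [Finset.mul_sum]
  refine Finset.sum_le_sum fun ξ hξ => ?_
  rw [norm_mul, mul_comm (2 * Real.exp (-(k:ℝ)))]
  refine mul_le_mul_of_nonneg_left ?_ (norm_nonneg _)
  have hn : ‖Complex.I * (θ ξ : ℂ)‖ = |θ ξ| := by
    rw [norm_mul, Complex.norm_I, one_mul, Complex.norm_real, Real.norm_eq_abs]
  have hb := (hθ ξ hξ).trans hδ
  have he2 : (2:ℝ) ≤ Real.exp 2 := by
    have := Real.add_one_le_exp (2:ℝ)
    linarith
  have hk : ‖Complex.I * (θ ξ : ℂ)‖ / (k.succ : ℝ) ≤ 1 / 2 := by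
    rw [hn, div_le_iff₀ (by positivity)]
    refine hb.trans ?_
    rw [div_le_iff₀ (Real.exp_pos _)]
    push_cast
    have hk0 : (0:ℝ) ≤ k := Nat.cast_nonneg k
    nlinarith
  refine (Complex.exp_bound' hk).trans ?_
  rw [hn]
  have := pow_div_factorial_small (abs_nonneg (θ ξ)) hb
  linarith

/-- the frequency `(j, ξ)` -/
def fr {m : ℕ} (j : ℤ) (ξ : Fin (m + 1) → ℤ) : Fin (m + 2) → ℤ :=
  Fin.cons (α := fun _ => ℤ) j ξ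

lemma fr_injective {m : ℕ} (j : ℤ) : Function.Injective (fr (m := m) j) := by
  intro ξ η h
  exact (Fin.cons_right_injective (α := fun _ => ℤ) j) h

lemma fr_sum {m : ℕ} (j : ℤ) (ξ : Fin (m + 1) → ℤ) :
    ∑ i, fr j ξ i ^ 2 = j ^ 2 + ∑ i, ξ i ^ 2 := by
  rw [Fin.sum_univ_succ]
  rfl

lemma ch_fr {m : ℕ} (j : ℤ) (ξ : Fin (m + 1) → ℤ) (x : Torus (m + 2)) :
    ch (fr j ξ) x = fourier j (x 0) * ch ξ (fun i => x i.succ) := by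
  unfold ch
  rw [Fin.prod_univ_succ]
  rfl

lemma norm_tp_fr {m : ℕ} (Ξ : Finset (Fin (m + 1) → ℤ)) (a : (Fin (m + 1) → ℤ) → ℂ) (j : ℤ)
    (x : Torus (m + 2)) : ‖tp Ξ (fr j) a x‖ = ‖tp Ξ id a (fun i => x i.succ)‖ := by
  have h : tp Ξ (fr j) a x = fourier j (x 0) * tp Ξ id a (fun i => x i.succ) := by
    unfold tp
    rw [Finset.mul_sum]
    refine Finset.sum_congr rfl fun ξ _ => ?_
    rw [ch_fr, id]
    ring
  have h1 : ‖(fourier j (x 0) : ℂ)‖ = 1 := Circle.norm_coe _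
  rw [h, norm_mul, h1, one_mul]

lemma small_on_ball {m : ℕ} (Ξ : Finset (Fin (m + 1) → ℤ)) (a : (Fin (m + 1) → ℤ) → ℂ)
    {k n Q : ℕ} (hm4 : m + 1 ≤ 4) (hn : n ≤ (m + 1) * Q ^ 2) (hΞ : ∀ ξ ∈ Ξ, ∑ i, ξ i ^ 2 = (n : ℤ))
    (hmom : ∀ (y : Fin (m + 1) → ℝ) (l : ℕ), l < k →
      ∑ ξ ∈ Ξ, a ξ * (∑ i, (ξ i : ℂ) * (y i : ℂ)) ^ l = 0)
    {r : ℝ} (hr : 0 ≤ r) (hrk : 2 * Q * r ≤ k / Real.exp 2) {x : Torus (m + 2)}
    (hx : x ∈ ball (m + 2) r) :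
    ‖tp Ξ id a (fun i => x i.succ)‖ ≤ 2 * Real.exp (-(k:ℝ)) * ∑ ξ ∈ Ξ, ‖a ξ‖ := by
  obtain ⟨z, hz, rfl⟩ := hx
  have hz : ∑ i, z i ^ 2 < r ^ 2 := hz
  have e : tp Ξ id a (fun i => proj z i.succ) = ∑ ξ ∈ Ξ, a ξ *
      Complex.exp (Complex.I * ((∑ i, (ξ i : ℝ) * z i.succ : ℝ) : ℂ)) := by
    unfold tp
    refine Finset.sum_congr rfl fun ξ _ => ?_
    have : (fun i : Fin (m + 1) => proj z i.succ) = proj (fun i => z i.succ) := rfl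
    rw [this, ch_proj]
    push_cast
    rfl
  rw [e]
  refine small_sum Ξ a _ hrk ?_ ?_
  · intro ξ hξ
    have h1 : (∑ i, (ξ i : ℝ) * z i.succ) ^ 2 ≤
        (∑ i, (ξ i : ℝ) ^ 2) * ∑ i : Fin (m + 1), z i.succ ^ 2 :=
      Finset.sum_mul_sq_le_sq_mul_sq _ _ _
    have h2 : ∑ i : Fin (m + 1), z i.succ ^ 2 ≤ r ^ 2 := by
      rw [Fin.sum_univ_succ] at hz
      nlinarith [sq_nonneg (z 0)]
    have h3 : (∑ i, (ξ i : ℝ) ^ 2) = n := by exact_mod_cast hΞ ξ hξ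
    have h4 : (n : ℝ) ≤ 4 * (Q:ℝ) ^ 2 := by
      have : n ≤ 4 * Q ^ 2 := hn.trans (Nat.mul_le_mul_right _ hm4)
      exact_mod_cast this
    refine abs_le_of_sq_le_sq ?_ (by positivity)
    rw [h3] at h1
    have h5 : (n:ℝ) * ∑ i : Fin (m + 1), z i.succ ^ 2 ≤ (4 * (Q:ℝ) ^ 2) * r ^ 2 := by
      refine mul_le_mul h4 h2 (Finset.sum_nonneg fun i _ => sq_nonneg _) (by positivity)
    calc (∑ i, (ξ i : ℝ) * z i.succ) ^ 2 ≤ (4 * (Q:ℝ) ^ 2) * r ^ 2 := h1.trans h5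
      _ = (2 * Q * r) ^ 2 := by ring
  · intro l hl
    have := hmom (fun i => z i.succ) l hl
    push_cast
    exact this

end Pool.Agent.H25.QL
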