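import Pool.Agent.H25.QL.Defs

set_option autoImplicit false

/-! Functions on the torus `ℝ^d / (2πℤ)^d`. -/

namespace Pool.Agent.H25.QL

open MeasureTheory

/-- character -/
noncomputable def ch {d : ℕ} (ξ : Fin d → ℤ) (x : Torus d) : ℂ := ∏ i, fourier (ξ i) (x i)

lemma ch_continuous {d : ℕ} (ξ : Fin d → ℤ) : Continuous (ch ξ) := by
  unfold ch
  exact continuous_finsetProd _ fun i _ => (fourier (ξ i)).continuous.comp (continuous_apply i)

lemma norm_ch {d : ℕ} (ξ : Fin d → ℤ) (x : Torus d) : ‖ch ξ x‖ = 1 := by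
  unfold ch
  rw [norm_prod]
  refine Finset.prod_eq_one fun i _ => ?_
  exact Circle.norm_coe _

lemma fourier_proj (n : ℤ) (s : ℝ) :
    (fourier n (s : AddCircle (2 * Real.pi)) : ℂ) = Complex.exp (Complex.I * (n * s)) := by
  rw [fourier_coe_apply]
  congr 1
  have : (Real.pi : ℂ) ≠ 0 := by exact_mod_cast Real.pi_ne_zero
  push_cast
  field_simp

lemma ch_proj {d : ℕ} (ξ : Fin d → ℤ) (x : Fin d → ℝ) :
    ch ξ (proj x) = Complex.exp (Complex.I * ∑ i, (ξ i : ℂ) * (x i : ℂ)) := by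
  unfold ch proj
  simp_rw [fourier_proj]
  rw [← Complex.exp_sum, Finset.mul_sum]

lemma ch_mul_conj {d : ℕ} (ξ η : Fin d → ℤ) (x : Torus d) :
    ch ξ x * (starRingEnd ℂ) (ch η x) = ch (ξ - η) x := by
  unfold ch
  rw [map_prod, ← Finset.prod_mul_distrib]
  refine Finset.prod_congr rfl fun i _ => ?_
  rw [← fourier_neg, ← fourier_add]
  rfl

lemma integral_fourier_ne {n : ℤ} (hn : n ≠ 0) :
    ∫ x : AddCircle (2 * Real.pi), (fourier n x : ℂ) = 0 := by
  have h1 := integral_add_right_eq_self (μ := (volume : Measure (AddCircle (2 * Real.pi))))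
    (fun x => (fourier n x : ℂ)) (((2 * Real.pi) / 2 / n : ℝ) : AddCircle (2 * Real.pi))
  have h2 : ∀ x : AddCircle (2 * Real.pi),
      (fourier n (x + (((2 * Real.pi) / 2 / n : ℝ) : AddCircle (2 * Real.pi))) : ℂ) =
      -(fourier n x : ℂ) := fun x => fourier_add_half_inv_index hn Real.two_pi_pos x
  simp_rw [h2] at h1
  rw [integral_neg] at h1
  have h3 : (2:ℂ) * ∫ x : AddCircle (2 * Real.pi), (fourier n x : ℂ) = 0 := by
    linear_combination -h1
  exact (mul_eq_zero.mp h3).resolve_left two_ne_zero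

lemma integral_fourier_zero :
    ∫ x : AddCircle (2 * Real.pi), (fourier 0 x : ℂ) = ((2 * Real.pi : ℝ) : ℂ) := by
  simp_rw [fourier_zero]
  rw [integral_const, measureReal_def, AddCircle.measure_univ,
    ENNReal.toReal_ofReal Real.two_pi_pos.le]
  simp

lemma integral_ch {d : ℕ} (ξ : Fin d → ℤ) :
    ∫ x : Torus d, ch ξ x = if ξ = 0 then (((2 * Real.pi) ^ d : ℝ) : ℂ) else 0 := by
  unfold ch
  rw [integral_fintype_prod_volume_eq_prod (fun i (x : AddCircle (2 * Real.pi)) => (fourier (ξ i) x : ℂ))]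
  split_ifs with h
  · subst h
    simp only [Pi.zero_apply]
    simp_rw [integral_fourier_zero]
    rw [Finset.prod_const, Finset.card_univ, Fintype.card_fin]
    push_cast
    ring
  · obtain ⟨i, hi⟩ : ∃ i, ξ i ≠ 0 := by
      by_contra hc
      push Not at hc
      exact h (funext hc)
    exact Finset.prod_eq_zero (Finset.mem_univ i) (integral_fourier_ne hi)

/-- trigonometric polynomial -/
noncomputable def tp {d : ℕ} {ι : Type} (Ξ : Finset ι) (f : ι → Fin d → ℤ) (a : ι → ℂ)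
    (x : Torus d) : ℂ := ∑ ξ ∈ Ξ, a ξ * ch (f ξ) x

lemma tp_continuous {d : ℕ} {ι : Type} (Ξ : Finset ι) (f : ι → Fin d → ℤ) (a : ι → ℂ) :
    Continuous (tp Ξ f a) := by
  unfold tp
  exact continuous_finsetSum _ fun i _ => continuous_const.mul (ch_continuous _)

lemma parseval {d : ℕ} {ι : Type} (Ξ : Finset ι) (f : ι → Fin d → ℤ)
    (hf : Function.Injective f) (a : ι → ℂ) :
    ∫ x : Torus d, ‖tp Ξ f a x‖ ^ 2 = (2 * Real.pi) ^ d * ∑ ξ ∈ Ξ, ‖a ξ‖ ^ 2 := by
  classical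
  have hci : ∀ ξ : Fin d → ℤ, Integrable (ch ξ : Torus d → ℂ) := fun ξ =>
    (ch_continuous ξ).integrable_of_hasCompactSupport (HasCompactSupport.of_compactSpace _)
  have h1 : ∀ x : Torus d, ((‖tp Ξ f a x‖ ^ 2 : ℝ) : ℂ) =
      ∑ ξ ∈ Ξ, ∑ η ∈ Ξ, a ξ * (starRingEnd ℂ) (a η) * ch (f ξ - f η) x := by
    intro x
    rw [← Complex.normSq_eq_norm_sq, ← Complex.mul_conj]
    unfold tp
    rw [map_sum, Finset.sum_mul_sum]
    refine Finset.sum_congr rfl fun ξ _ => Finset.sum_congr rfl fun η _ => ?_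
    rw [map_mul, ← ch_mul_conj]
    ring
  have h2 : ((∫ x : Torus d, ‖tp Ξ f a x‖ ^ 2 : ℝ) : ℂ) =
      ∑ ξ ∈ Ξ, ∑ η ∈ Ξ, a ξ * (starRingEnd ℂ) (a η) *
        (if f ξ - f η = 0 then (((2 * Real.pi) ^ d : ℝ) : ℂ) else 0) := by
    rw [← integral_complex_ofReal]
    simp_rw [h1]
    rw [integral_finsetSum _ fun ξ _ => integrable_finsetSum _ fun η _ => (hci _).const_mul _]
    refine Finset.sum_congr rfl fun ξ _ => ?_
    rw [integral_finsetSum _ fun η _ => (hci _).const_mul _]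
    refine Finset.sum_congr rfl fun η _ => ?_
    rw [integral_const_mul, integral_ch]
  have h3 : ∀ ξ ∈ Ξ, ∑ η ∈ Ξ, a ξ * (starRingEnd ℂ) (a η) *
        (if f ξ - f η = 0 then (((2 * Real.pi) ^ d : ℝ) : ℂ) else 0) =
      (((2 * Real.pi) ^ d * ‖a ξ‖ ^ 2 : ℝ) : ℂ) := by
    intro ξ hξ
    rw [Finset.sum_eq_single ξ]
    · rw [sub_self, if_pos rfl, Complex.mul_conj']
      push_cast
      ring
    · intro η _ hne
      rw [if_neg, mul_zero]
      intro h
      exact hne (hf (sub_eq_zero.mp h)).symm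
    · intro h; exact absurd hξ h
  rw [Finset.sum_congr rfl h3, ← Complex.ofReal_sum] at h2
  have h4 := Complex.ofReal_injective h2
  rw [h4, Finset.mul_sum]

lemma exp_update {d : ℕ} (ξ : Fin d → ℤ) (x : Fin d → ℝ) (i : Fin d) (s : ℝ) :
    ch ξ (proj (Function.update x i s)) =
      ch ξ (proj x) * Complex.exp (Complex.I * ((ξ i : ℂ) * ((s - x i : ℝ) : ℂ))) := by
  classical
  rw [ch_proj, ch_proj, ← Complex.exp_add]
  congr 1
  rw [← mul_add]
  congr 1
  rw [← Finset.add_sum_erase Finset.univ _ (Finset.mem_univ i),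
    ← Finset.add_sum_erase Finset.univ (fun j => (ξ j : ℂ) * (x j : ℂ)) (Finset.mem_univ i),
    Function.update_self]
  have : ∑ j ∈ Finset.univ.erase i, (ξ j : ℂ) * ((Function.update x i s j : ℝ) : ℂ) =
      ∑ j ∈ Finset.univ.erase i, (ξ j : ℂ) * (x j : ℂ) := by
    refine Finset.sum_congr rfl fun j hj => ?_
    rw [Function.update_of_ne (Finset.ne_of_mem_erase hj)]
  rw [this]
  push_cast
  ring

lemma deriv_exp_lin (c : ℂ) (b : ℝ) :
    deriv (fun s : ℝ => Complex.exp (Complex.I * (c * ((s - b : ℝ) : ℂ)))) =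
      fun s : ℝ => (Complex.I * c) * Complex.exp (Complex.I * (c * ((s - b : ℝ) : ℂ))) := by
  funext s
  have h1 : HasDerivAt (fun s : ℝ => ((s - b : ℝ) : ℂ)) 1 s := by
    have := ((hasDerivAt_id s).sub_const b).ofReal_comp
    simpa using this
  have h2 := ((h1.const_mul c).const_mul Complex.I).cexp
  rw [h2.deriv]
  ring

lemma tp_update {d : ℕ} {ι : Type} (Ξ : Finset ι) (f : ι → Fin d → ℤ) (a : ι → ℂ)
    (x : Fin d → ℝ) (i : Fin d) :
    deriv (deriv fun s => tp Ξ f a (proj (Function.update x i s))) (x i) =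
      ∑ ξ ∈ Ξ, -((f ξ i : ℂ) ^ 2) * (a ξ * ch (f ξ) (proj x)) := by
  have hd : ∀ (c : ℂ) (b : ℝ), Differentiable ℝ
      (fun s : ℝ => Complex.exp (Complex.I * (c * ((s - b : ℝ) : ℂ)))) := by
    intro c b s
    have h1 : HasDerivAt (fun s : ℝ => ((s - b : ℝ) : ℂ)) 1 s := by
      have := ((hasDerivAt_id s).sub_const b).ofReal_comp
      simpa using this
    exact ((h1.const_mul c).const_mul Complex.I).cexp.differentiableAt
  have e1 : (fun s => tp Ξ f a (proj (Function.update x i s))) = fun s : ℝ =>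
      ∑ ξ ∈ Ξ, (a ξ * ch (f ξ) (proj x)) *
        Complex.exp (Complex.I * ((f ξ i : ℂ) * ((s - x i : ℝ) : ℂ))) := by
    funext s
    unfold tp
    refine Finset.sum_congr rfl fun ξ _ => ?_
    rw [exp_update]
    ring
  have e2 : deriv (fun s => tp Ξ f a (proj (Function.update x i s))) = fun s : ℝ =>
      ∑ ξ ∈ Ξ, (a ξ * ch (f ξ) (proj x) * (Complex.I * (f ξ i : ℂ))) *
        Complex.exp (Complex.I * ((f ξ i : ℂ) * ((s - x i : ℝ) : ℂ))) := by
    rw [e1]
    funext s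
    rw [deriv_fun_sum fun ξ _ => ((hd _ _ s).const_mul _)]
    refine Finset.sum_congr rfl fun ξ _ => ?_
    rw [deriv_const_mul _ (hd _ _ s), deriv_exp_lin]
    ring
  rw [e2, deriv_fun_sum fun ξ _ => ((hd _ _ (x i)).const_mul _)]
  refine Finset.sum_congr rfl fun ξ _ => ?_
  rw [deriv_const_mul _ (hd _ _ (x i)), deriv_exp_lin]
  simp only [sub_self, Complex.ofReal_zero, mul_zero, Complex.exp_zero, mul_one]
  linear_combination (a ξ * ch (f ξ) (proj x) * (f ξ i : ℂ) ^ 2) * Complex.I_mul_I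

lemma lap_tp {d : ℕ} {ι : Type} (Ξ : Finset ι) (f : ι → Fin d → ℤ) (a : ι → ℂ) {N : ℕ}
    (hN : ∀ ξ ∈ Ξ, ∑ i, f ξ i ^ 2 = (N : ℤ)) (x : Fin d → ℝ) :
    -lap (fun x => tp Ξ f a (proj x)) x = (N : ℂ) * tp Ξ f a (proj x) := by
  unfold lap
  simp_rw [tp_update]
  rw [Finset.sum_comm, ← Finset.sum_neg_distrib]
  have e : tp Ξ f a (proj x) = ∑ ξ ∈ Ξ, a ξ * ch (f ξ) (proj x) := rfl
  rw [e, Finset.mul_sum]
  refine Finset.sum_congr rfl fun ξ hξ => ?_
  rw [← Finset.sum_mul]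
  have h1 : (∑ i, (f ξ i : ℂ) ^ 2) = N := by exact_mod_cast hN ξ hξ
  rw [Finset.sum_neg_distrib, h1]
  ring

lemma tp_contDiff {d : ℕ} {ι : Type} (Ξ : Finset ι) (f : ι → Fin d → ℤ) (a : ι → ℂ) (n : ℕ) :
    ContDiff ℝ n (fun x => tp Ξ f a (proj x)) := by
  unfold tp
  simp_rw [ch_proj]
  refine ContDiff.sum fun ξ _ => ContDiff.mul contDiff_const ?_
  have h0 : ContDiff ℂ n Complex.exp := Complex.contDiff_exp
  have h : ContDiff ℝ n Complex.exp := h0.restrict_scalars ℝ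
  refine h.comp ?_
  refine contDiff_const.mul ?_
  refine ContDiff.sum fun i _ => contDiff_const.mul ?_
  exact Complex.ofRealCLM.contDiff.comp (contDiff_apply ℝ ℝ i)

end Pool.Agent.H25.QL
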